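import Pool.Agent.MPafaa81.Rect

set_option autoImplicit false

/-!
# Universal recovery by unconstrained nuclear norm minimisation

If a sequence of binary matrices admits stable recovery of low rank matrices, then every choice of
(unconstrained) nuclear norm minimisers recovers every sequence of matrices of uniformly bounded
rank and uniformly bounded entries, asymptotically in the normalised Frobenius norm.
-/

namespace Pool.Agent.Results.MP_afaa81_pr.UniversalRecovery

open Pool.Agent.MPafaa81 Filter Topology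
open scoped Matrix

theorem result (m n : ℕ → ℕ) (hm : Tendsto m atTop atTop) (hn : Tendsto n atTop atTop)
    (P : ∀ k, Matrix (Fin (m k)) (Fin (n k)) ℝ) (hP : ∀ k, IsBinary (P k))
    (hSR : AdmitsStableRecovery m n P)
    (A : ∀ k, Matrix (Fin (m k)) (Fin (n k)) ℝ)
    (hrank : ∃ K : ℕ, ∀ k, (A k).rank ≤ K)
    (hbdd : ∃ L : ℝ, ∀ k i j, |A k i j| ≤ L)
    (Ahat : ∀ k, Matrix (Fin (m k)) (Fin (n k)) ℝ)
    (hmin : ∀ k, IsNuclearMinimiser (A k) (P k) (Ahat k)) :
    Tendsto (fun k => frobBar (Ahat k - A k)) atTop (𝓝 0) := by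
  classical
  obtain ⟨K, hK⟩ := hrank
  obtain ⟨L0, hL0⟩ := hbdd
  set L : ℝ := |L0| + 1 with hLdef
  have hLpos : 0 < L := by positivity
  have hL : ∀ k i j, |A k i j| ≤ L := fun k i j =>
    (hL0 k i j).trans ((le_abs_self L0).trans (by linarith))
  -- the rectangle density function
  have hdens := rect_density m n P hP hSR
  choose! δ hδ hrect using hdens
  set C : ℝ := 2 * (√(K : ℝ) * L) + 1 with hC
  have hC0 : 0 < C := by positivity
  -- the error function
  set B : ℝ → ℝ := fun ε =>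
    √(4 * K * L * √(2 * ε * L ^ 2 + ε ^ 2) + 2 * (2 * ε * L ^ 2 + ε ^ 2)) with hBdef
  have hBcont : Continuous B := by
    simp only [hBdef]; fun_prop
  have hB0 : B 0 = 0 := by simp [hBdef]
  rw [Metric.tendsto_atTop']
  intro η hη
  have hBlim : Tendsto B (𝓝 0) (𝓝 0) := by
    have := hBcont.tendsto 0
    rwa [hB0] at this
  obtain ⟨ε, hε0, hεB⟩ : ∃ ε : ℝ, 0 < ε ∧ B ε < η := by
    have h1 : ∀ᶠ ε in 𝓝 (0 : ℝ), B ε < η := hBlim.eventually (gt_mem_nhds hη)
    have h2 : ∀ᶠ ε in 𝓝[>] (0 : ℝ), B ε < η := h1.filter_mono nhdsWithin_le_nhds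
    obtain ⟨ε, h3, h4⟩ := (h2.and self_mem_nhdsWithin).exists
    exact ⟨ε, h4, h3⟩
  obtain ⟨E, hE0, hkey⟩ := key C ε hC0 hε0 δ hδ
  have hall : ∀ᶠ k in atTop, ∀ e ∈ E, ∀ (S : Finset (Fin (m k))) (T : Finset (Fin (n k))),
      e * ((m k : ℝ) * n k) ≤ (S.card : ℝ) * T.card →
      δ e * ((m k : ℝ) * n k) ≤ (((S ×ˢ T).filter fun p => P k p.1 p.2 ≠ 0).card : ℝ) := by
    rw [Filter.eventually_all_finset]
    intro e he
    exact hrect e (hE0 e he)
  have hev : ∀ᶠ k in atTop, dist (frobBar (Ahat k - A k)) 0 < η := by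
    filter_upwards [hall, hm.eventually_ge_atTop 1, hn.eventually_ge_atTop 1] with k hk hmk hnk
    have hm' : (0 : ℝ) < m k := by exact_mod_cast hmk
    have hn' : (0 : ℝ) < n k := by exact_mod_cast hnk
    have hpos : (0 : ℝ) < (m k : ℝ) * n k := by positivity
    set Z := Ahat k - A k with hZ
    have hZP : ∀ i j, P k i j ≠ 0 → Z i j = 0 := by
      intro i j hij
      have h1 := congrFun (congrFun (hmin k).1 i) j
      rw [Matrix.hadamard_apply, Matrix.hadamard_apply] at h1
      have h2 := mul_right_cancel₀ hij h1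
      rw [hZ, Matrix.sub_apply, h2, sub_self]
    have hNle : nuclearNorm (Ahat k) ≤ nuclearNorm (A k) := (hmin k).2 (A k) rfl
    have hNA : nuclearNorm (A k) ≤ √(K : ℝ) * L * √((m k : ℝ) * n k) := by
      refine (nuclearNorm_sq_le (A k)).trans ?_
      have h1 : ∑ i, ∑ j, A k i j ^ 2 ≤ L ^ 2 * ((m k : ℝ) * n k) := by
        calc ∑ i, ∑ j, A k i j ^ 2 ≤ ∑ i : Fin (m k), ∑ j : Fin (n k), L ^ 2 := by
              refine Finset.sum_le_sum fun i _ => Finset.sum_le_sum fun j _ => ?_
              rw [← sq_abs]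
              have := hL k i j
              gcongr
          _ = L ^ 2 * ((m k : ℝ) * n k) := by
              simp only [Finset.sum_const, Finset.card_univ, Fintype.card_fin, nsmul_eq_mul]
              ring
      have h2 : √(∑ i, ∑ j, A k i j ^ 2) ≤ L * √((m k : ℝ) * n k) := by
        refine (Real.sqrt_le_sqrt h1).trans (le_of_eq ?_)
        rw [Real.sqrt_mul (sq_nonneg L), Real.sqrt_sq hLpos.le]
      calc √((A k).rank : ℝ) * √(∑ i, ∑ j, A k i j ^ 2)
          ≤ √(K : ℝ) * (L * √((m k : ℝ) * n k)) := by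
            refine mul_le_mul (Real.sqrt_le_sqrt ?_) h2 (Real.sqrt_nonneg _) (Real.sqrt_nonneg _)
            exact_mod_cast hK k
        _ = _ := by ring
    have hNZ : nuclearNorm Z ≤ C * √((m k : ℝ) * n k) := by
      have h1 := nuclearNorm_sub_le (Ahat k) (A k)
      have h2 : 0 ≤ √((m k : ℝ) * n k) := Real.sqrt_nonneg _
      have h3 : C * √((m k : ℝ) * n k)
          = 2 * (√(K : ℝ) * L * √((m k : ℝ) * n k)) + √((m k : ℝ) * n k) := by
        rw [hC]; ring
      rw [h3]
      linarith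
    obtain ⟨R, C', hR, hC', hsum⟩ := hkey (m k) (n k) hmk hnk (P k) Z hZP hk hNZ
    have hfin := final_bound (A k) (Ahat k) K L ε hLpos.le hε0.le (hK k) (hL k) hNle R C' hR hC'
      hsum
    rw [Real.dist_eq, sub_zero, abs_of_nonneg (frobBar_nonneg _)]
    refine lt_of_le_of_lt ?_ hεB
    rw [frobBar, hBdef]
    apply Real.sqrt_le_sqrt
    rw [div_le_iff₀ hpos]
    exact hfin
  rw [Filter.eventually_atTop] at hev
  obtain ⟨N, hN⟩ := hev
  exact ⟨N, fun k hk => hN k hk.le⟩

end Pool.Agent.Results.MP_afaa81_pr.UniversalRecovery
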